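import Pool.Agent.W223.HZ.Stms

/-!
# HZ-SMX (for helper223): the `k` with a small point
-/

set_option autoImplicit false

namespace Pool.Agent.W904.HZ

/-- integers in a real interval -/
theorem cardIcc (L U : ℝ) (h : L ≤ U + 1) : ((Finset.Icc ⌈L⌉ ⌊U⌋).card : ℝ) ≤ U - L + 1 := by
  rw [Int.card_Icc]
  have h1 : ((⌊U⌋ + 1 - ⌈L⌉).toNat : ℝ) = (((⌊U⌋ + 1 - ⌈L⌉).toNat : ℤ) : ℝ) := by norm_cast
  rw [h1, Int.toNat_eq_max]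
  push_cast
  refine max_le ?_ (by linarith)
  have := Int.floor_le U
  have := Int.le_ceil L
  linarith

theorem fin0 (K : ℝ) : {k : ℤ | |(k : ℝ)| ≤ K}.Finite := by
  refine (Set.finite_Icc (⌈-K⌉) (⌊K⌋)).subset ?_
  intro k hk
  have h := abs_le.1 (show |(k : ℝ)| ≤ K from hk)
  exact ⟨Int.ceil_le.2 (by linarith), Int.le_floor.2 h.2⟩

/-- from the family of the `x` -/
theorem cnt (N b : ℝ) (I : Finset ℤ) (hI : (I.card : ℝ) ≤ N) (hb : 0 ≤ b)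
    (L U : ℤ → ℝ) (hb2 : ∀ x ∈ I, L x ≤ U x ∧ U x - L x + 1 ≤ b) (S : Set ℤ)
    (hS : ∀ k ∈ S, ∃ x ∈ I, ∃ y : ℤ, L x ≤ y ∧ (y : ℝ) ≤ U x ∧ y ^ 2 = x ^ 3 + k) :
    (S.ncard : ℝ) ≤ N * b := by
  classical
  have h1 : S ⊆ ↑(I.biUnion fun x => (Finset.Icc ⌈L x⌉ ⌊U x⌋).image fun y => y ^ 2 - x ^ 3) := by
    intro k hk
    obtain ⟨x, hx, y, h2, h3, h4⟩ := hS k hk
    simp only [Finset.coe_biUnion, Set.mem_iUnion]
    refine ⟨x, hx, ?_⟩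
    simp only [Finset.coe_image, Set.mem_image, Finset.coe_Icc, Set.mem_Icc]
    exact ⟨y, ⟨Int.ceil_le.2 h2, Int.le_floor.2 h3⟩, by rw [h4]; ring⟩
  have h2 := Set.ncard_le_ncard h1 (Finset.finite_toSet _)
  rw [Set.ncard_coe_finset] at h2
  have h3 : ((I.biUnion fun x => (Finset.Icc ⌈L x⌉ ⌊U x⌋).image fun y => y ^ 2 - x ^ 3).card : ℝ) ≤
      ∑ x ∈ I, (((Finset.Icc ⌈L x⌉ ⌊U x⌋).image fun y => y ^ 2 - x ^ 3).card : ℝ) := by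
    exact_mod_cast Finset.card_biUnion_le
  calc (S.ncard : ℝ) ≤ _ := by exact_mod_cast h2
    _ ≤ _ := h3
    _ ≤ ∑ _x ∈ I, b := by
      refine Finset.sum_le_sum fun x hx => ?_
      refine le_trans ?_ (hb2 x hx).2
      refine le_trans ?_ (cardIcc (L x) (U x) (by linarith [(hb2 x hx).1]))
      exact_mod_cast Finset.card_image_le
    _ = I.card * b := by rw [Finset.sum_const, nsmul_eq_mul]
    _ ≤ N * b := mul_le_mul_of_nonneg_right hI hb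

theorem rng (K β γ : ℝ) (hK : 1 ≤ K) (hγ : γ ≤ 99 / 100)
    (h2 : γ + 1 - 3 / 2 * β ≤ 99 / 100) :
    ({k : ℤ | |(k : ℝ)| ≤ K ∧ ∃ x y : ℤ, 0 ≤ y ∧ y ^ 2 = x ^ 3 + k ∧ K ^ β < x ∧
      (x : ℝ) ≤ K ^ γ}.ncard : ℝ) ≤ 3 * K ^ ((99 : ℝ) / 100) := by
  classical
  have hK0 : 0 < K := by linarith
  have hs0 : 0 < K ^ (3 / 2 * β) := Real.rpow_pos_of_pos hK0 _
  have hg0 : 0 < K ^ γ := Real.rpow_pos_of_pos hK0 _
  have hb0 : 0 < K ^ β := Real.rpow_pos_of_pos hK0 _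
  have hbd : 0 ≤ 1 + 2 * K / K ^ (3 / 2 * β) := by positivity
  have hmain := cnt (K ^ γ) (1 + 2 * K / K ^ (3 / 2 * β))
    ((Finset.Icc (1 : ℤ) ⌊K ^ γ⌋).filter fun x : ℤ => K ^ β < (x : ℝ)) ?_ hbd
    (fun x => Real.sqrt ((x : ℝ) ^ 3 - K)) (fun x => Real.sqrt ((x : ℝ) ^ 3 + K)) ?_
    {k : ℤ | |(k : ℝ)| ≤ K ∧ ∃ x y : ℤ, 0 ≤ y ∧ y ^ 2 = x ^ 3 + k ∧ K ^ β < x ∧
      (x : ℝ) ≤ K ^ γ} ?_
  · refine hmain.trans ?_
    have e1 : K ^ γ * (1 + 2 * K / K ^ (3 / 2 * β)) = K ^ γ + 2 * K ^ (γ + 1 - 3 / 2 * β) := by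
      rw [Real.rpow_sub hK0, Real.rpow_add hK0, Real.rpow_one]
      ring
    rw [e1]
    have g1 := Real.rpow_le_rpow_of_exponent_le hK hγ
    have g2 := Real.rpow_le_rpow_of_exponent_le hK h2
    linarith
  · have h3 : ((Finset.Icc (1 : ℤ) ⌊K ^ γ⌋).filter fun x : ℤ => K ^ β < (x : ℝ)).card ≤
        (Finset.Icc (1 : ℤ) ⌊K ^ γ⌋).card := Finset.card_filter_le _ _
    have h4 : ((Finset.Icc (1 : ℤ) ⌊K ^ γ⌋).card : ℝ) ≤ K ^ γ := by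
      have := cardIcc 1 (K ^ γ) (by linarith)
      rw [Int.ceil_one] at this
      linarith
    refine le_trans ?_ h4
    exact_mod_cast h3
  · intro x hx
    rw [Finset.mem_filter] at hx
    have hx0 : 0 < (x : ℝ) := hb0.trans hx.2
    have hx3 : 0 < (x : ℝ) ^ 3 := by positivity
    have hLU : Real.sqrt ((x : ℝ) ^ 3 - K) ≤ Real.sqrt ((x : ℝ) ^ 3 + K) :=
      Real.sqrt_le_sqrt (by linarith)
    refine ⟨hLU, ?_⟩
    have hU : Real.sqrt ((x : ℝ) ^ 3 + K) ^ 2 = (x : ℝ) ^ 3 + K := Real.sq_sqrt (by linarith)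
    have hL : (x : ℝ) ^ 3 - K ≤ Real.sqrt ((x : ℝ) ^ 3 - K) ^ 2 := by
      rcases le_total 0 ((x : ℝ) ^ 3 - K) with c | c
      · rw [Real.sq_sqrt c]
      · exact c.trans (sq_nonneg _)
    have hs : K ^ (3 / 2 * β) ≤ Real.sqrt ((x : ℝ) ^ 3 + K) := by
      refine Real.le_sqrt_of_sq_le ?_
      have e : (K ^ (3 / 2 * β)) ^ 2 = (K ^ β) ^ 3 := by
        rw [← Real.rpow_natCast, ← Real.rpow_natCast, ← Real.rpow_mul hK0.le,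
          ← Real.rpow_mul hK0.le]
        congr 1
        push_cast
        ring
      rw [e]
      have := pow_le_pow_left₀ hb0.le hx.2.le 3
      linarith
    have hL0 := Real.sqrt_nonneg ((x : ℝ) ^ 3 - K)
    have h5 : Real.sqrt ((x : ℝ) ^ 3 + K) - Real.sqrt ((x : ℝ) ^ 3 - K) ≤
        2 * K / K ^ (3 / 2 * β) := by
      rw [le_div_iff₀ hs0]
      calc (Real.sqrt ((x : ℝ) ^ 3 + K) - Real.sqrt ((x : ℝ) ^ 3 - K)) * K ^ (3 / 2 * β) ≤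
          (Real.sqrt ((x : ℝ) ^ 3 + K) - Real.sqrt ((x : ℝ) ^ 3 - K)) *
          (Real.sqrt ((x : ℝ) ^ 3 + K) + Real.sqrt ((x : ℝ) ^ 3 - K)) :=
            mul_le_mul_of_nonneg_left (by linarith) (by linarith)
        _ = Real.sqrt ((x : ℝ) ^ 3 + K) ^ 2 - Real.sqrt ((x : ℝ) ^ 3 - K) ^ 2 := by ring
        _ ≤ 2 * K := by linarith
    linarith
  · rintro k ⟨hk, x, y, hy, he, h3, h4⟩
    have hk' := abs_le.1 hk
    have heR : (y : ℝ) ^ 2 = (x : ℝ) ^ 3 + k := by exact_mod_cast he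
    have hyR : (0 : ℝ) ≤ y := by exact_mod_cast hy
    refine ⟨x, ?_, y, ?_, ?_, he⟩
    · rw [Finset.mem_filter, Finset.mem_Icc]
      refine ⟨⟨?_, Int.le_floor.2 h4⟩, h3⟩
      have : (0 : ℝ) < x := hb0.trans h3
      have : (0 : ℤ) < x := by exact_mod_cast this
      omega
    · rw [Real.sqrt_le_left hyR]
      linarith
    · refine Real.le_sqrt_of_sq_le ?_
      linarith

theorem rng0 (K : ℝ) (hK : 1 ≤ K) :
    ({k : ℤ | |(k : ℝ)| ≤ K ∧ ∃ x y : ℤ, 0 ≤ y ∧ y ^ 2 = x ^ 3 + k ∧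
      (x : ℝ) ≤ K ^ ((34 : ℝ) / 100)}.ncard : ℝ) ≤ 9 * K ^ ((99 : ℝ) / 100) := by
  have hK0 : 0 < K := by linarith
  have hg1 : 1 ≤ K ^ ((34 : ℝ) / 100) := Real.one_le_rpow hK (by norm_num)
  have hg2 : 1 ≤ K ^ ((51 : ℝ) / 100) := Real.one_le_rpow hK (by norm_num)
  have e3 : (K ^ ((34 : ℝ) / 100)) ^ 3 = (K ^ ((51 : ℝ) / 100)) ^ 2 := by
    rw [← Real.rpow_natCast, ← Real.rpow_natCast, ← Real.rpow_mul hK0.le,
      ← Real.rpow_mul hK0.le]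
    congr 1
    push_cast
    norm_num
  have e4 : K ≤ (K ^ ((51 : ℝ) / 100)) ^ 2 := by
    rw [← Real.rpow_natCast, ← Real.rpow_mul hK0.le]
    have := Real.rpow_le_rpow_of_exponent_le hK
      (show (1 : ℝ) ≤ (51 : ℝ) / 100 * ((2 : ℕ) : ℝ) by norm_num)
    rwa [Real.rpow_one] at this
  have hmain := cnt (3 * K ^ ((34 : ℝ) / 100)) (3 * K ^ ((51 : ℝ) / 100))
    (Finset.Icc ⌈-(K ^ ((34 : ℝ) / 100))⌉ ⌊K ^ ((34 : ℝ) / 100)⌋) ?_ (by positivity)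
    (fun _ => 0) (fun _ => 2 * K ^ ((51 : ℝ) / 100)) ?_
    {k : ℤ | |(k : ℝ)| ≤ K ∧ ∃ x y : ℤ, 0 ≤ y ∧ y ^ 2 = x ^ 3 + k ∧
      (x : ℝ) ≤ K ^ ((34 : ℝ) / 100)} ?_
  · refine hmain.trans ?_
    have e1 : 3 * K ^ ((34 : ℝ) / 100) * (3 * K ^ ((51 : ℝ) / 100)) =
        9 * K ^ ((34 : ℝ) / 100 + (51 : ℝ) / 100) := by
      rw [Real.rpow_add hK0]
      ring
    rw [e1]
    have g1 := Real.rpow_le_rpow_of_exponent_le hK
      (show (34 : ℝ) / 100 + (51 : ℝ) / 100 ≤ 99 / 100 by norm_num)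
    linarith
  · have := cardIcc (-(K ^ ((34 : ℝ) / 100))) (K ^ ((34 : ℝ) / 100)) (by linarith)
    linarith
  · intro x _
    constructor <;> linarith
  · rintro k ⟨hk, x, y, hy, he, h4⟩
    have hk' := abs_le.1 hk
    have heR : (y : ℝ) ^ 2 = (x : ℝ) ^ 3 + k := by exact_mod_cast he
    have hyR : (0 : ℝ) ≤ y := by exact_mod_cast hy
    refine ⟨x, ?_, y, hyR, ?_, he⟩
    · rw [Finset.mem_Icc]
      refine ⟨Int.ceil_le.2 ?_, Int.le_floor.2 h4⟩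
      by_contra hc
      push Not at hc
      have h5 : K ^ ((34 : ℝ) / 100) < -(x : ℝ) := by linarith
      have h6 := pow_lt_pow_left₀ h5 (by positivity) (show 3 ≠ 0 by norm_num)
      have h7 : (-(x : ℝ)) ^ 3 = -(x : ℝ) ^ 3 := by ring
      rw [h7, e3] at h6
      have := sq_nonneg (y : ℝ)
      linarith
    · show (y : ℝ) ≤ 2 * K ^ ((51 : ℝ) / 100)
      have h6 : (x : ℝ) ^ 3 ≤ (K ^ ((51 : ℝ) / 100)) ^ 2 := by
        rw [← e3]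
        exact (Odd.strictMono_pow (show Odd 3 by decide)).monotone h4
      refine abs_le_of_sq_le_sq' ?_ (by positivity) |>.2
      nlinarith

theorem t : Pool.Agent.W223.HZ.StmtSMX := by
  refine ⟨18, by norm_num, fun K hK => ?_⟩
  have h0 := rng0 K hK
  have h1 := rng K (34 / 100) (50 / 100) hK (by norm_num) (by norm_num)
  have h2 := rng K (50 / 100) (74 / 100) hK (by norm_num) (by norm_num)
  have h3 := rng K (74 / 100) (98 / 100) hK (by norm_num) (by norm_num)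
  set S0 := {k : ℤ | |(k : ℝ)| ≤ K ∧ ∃ x y : ℤ, 0 ≤ y ∧ y ^ 2 = x ^ 3 + k ∧
      (x : ℝ) ≤ K ^ ((34 : ℝ) / 100)} with hS0
  set S1 := {k : ℤ | |(k : ℝ)| ≤ K ∧ ∃ x y : ℤ, 0 ≤ y ∧ y ^ 2 = x ^ 3 + k ∧
      K ^ ((34 : ℝ) / 100) < x ∧ (x : ℝ) ≤ K ^ ((50 : ℝ) / 100)} with hS1
  set S2 := {k : ℤ | |(k : ℝ)| ≤ K ∧ ∃ x y : ℤ, 0 ≤ y ∧ y ^ 2 = x ^ 3 + k ∧
      K ^ ((50 : ℝ) / 100) < x ∧ (x : ℝ) ≤ K ^ ((74 : ℝ) / 100)} with hS2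
  set S3 := {k : ℤ | |(k : ℝ)| ≤ K ∧ ∃ x y : ℤ, 0 ≤ y ∧ y ^ 2 = x ^ 3 + k ∧
      K ^ ((74 : ℝ) / 100) < x ∧ (x : ℝ) ≤ K ^ ((98 : ℝ) / 100)} with hS3
  have hsub : {k : ℤ | |(k : ℝ)| ≤ K ∧ ∃ x y : ℤ, y ^ 2 = x ^ 3 + k ∧
      (x : ℝ) ≤ K ^ ((98 : ℝ) / 100)} ⊆ S0 ∪ S1 ∪ S2 ∪ S3 := by
    rintro k ⟨hk, x, y, he, hx⟩
    have he' : |y| ^ 2 = x ^ 3 + k := by rw [sq_abs]; exact he
    rcases le_or_gt (x : ℝ) (K ^ ((34 : ℝ) / 100)) with c | c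
    · exact Or.inl (Or.inl (Or.inl ⟨hk, x, |y|, abs_nonneg y, he', c⟩))
    rcases le_or_gt (x : ℝ) (K ^ ((50 : ℝ) / 100)) with d | d
    · exact Or.inl (Or.inl (Or.inr ⟨hk, x, |y|, abs_nonneg y, he', c, d⟩))
    rcases le_or_gt (x : ℝ) (K ^ ((74 : ℝ) / 100)) with e | e
    · exact Or.inl (Or.inr ⟨hk, x, |y|, abs_nonneg y, he', d, e⟩)
    · exact Or.inr ⟨hk, x, |y|, abs_nonneg y, he', e, hx⟩
  have hf : (S0 ∪ S1 ∪ S2 ∪ S3).Finite := by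
    refine (fin0 K).subset ?_
    rintro k (((h | h) | h) | h) <;> exact h.1
  have g1 := Set.ncard_le_ncard hsub hf
  have g2 := Set.ncard_union_le (S0 ∪ S1 ∪ S2) S3
  have g3 := Set.ncard_union_le (S0 ∪ S1) S2
  have g4 := Set.ncard_union_le S0 S1
  have g5 : {k : ℤ | |(k : ℝ)| ≤ K ∧ ∃ x y : ℤ, y ^ 2 = x ^ 3 + k ∧
      (x : ℝ) ≤ K ^ ((98 : ℝ) / 100)}.ncard ≤ S0.ncard + S1.ncard + S2.ncard + S3.ncard := by
    omega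
  have g6 : (({k : ℤ | |(k : ℝ)| ≤ K ∧ ∃ x y : ℤ, y ^ 2 = x ^ 3 + k ∧
      (x : ℝ) ≤ K ^ ((98 : ℝ) / 100)}.ncard : ℕ) : ℝ) ≤
      S0.ncard + S1.ncard + S2.ncard + S3.ncard := by exact_mod_cast g5
  refine g6.trans ?_
  linarith

end Pool.Agent.W904.HZ
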